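import Mathlib

set_option autoImplicit false

namespace Pool.Agent.H.MP_2c2cb6_an

open Finset

/-! ### The tent function -/

/-- The distance to the nearest integer. -/
noncomputable def tent (u : ℝ) : ℝ := min (Int.fract u) (1 - Int.fract u)

lemma tent_nonneg (u : ℝ) : 0 ≤ tent u :=
  le_min (Int.fract_nonneg u) (by linarith [Int.fract_lt_one u])

lemma tent_le_half (u : ℝ) : tent u ≤ 1 / 2 := by
  unfold tent
  rcases le_total (Int.fract u) (1 / 2) with h | h
  · exact (min_le_left _ _).trans h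
  · exact (min_le_right _ _).trans (by linarith)

lemma tent_sub_of_floor_eq {u v : ℝ} (h : ⌊u⌋ = ⌊v⌋) : |tent u - tent v| ≤ |u - v| := by
  have h1 : Int.fract u - Int.fract v = u - v := by
    unfold Int.fract; rw [h]; ring
  unfold tent
  refine (abs_min_sub_min_le_max _ _ _ _).trans ?_
  refine max_le ?_ ?_
  · rw [h1]
  · rw [show (1 - Int.fract u) - (1 - Int.fract v) = -(Int.fract u - Int.fract v) by ring, h1,
      abs_neg]

lemma tent_add_of_floor_ne {u v : ℝ} (huv : u ≤ v) (h : ⌊u⌋ ≠ ⌊v⌋) :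
    tent u + tent v ≤ v - u := by
  have h1 : ⌊u⌋ < ⌊v⌋ := lt_of_le_of_ne (Int.floor_le_floor huv) h
  have h2 : (⌊u⌋ : ℝ) + 1 ≤ ⌊v⌋ := by exact_mod_cast h1
  have h3 : tent u ≤ 1 - Int.fract u := min_le_right _ _
  have h4 : tent v ≤ Int.fract v := min_le_left _ _
  have h5 : Int.fract u = u - ⌊u⌋ := rfl
  have h6 : Int.fract v = v - ⌊v⌋ := rfl
  linarith

lemma tent_or (u : ℝ) : 1 / 4 ≤ tent u ∨ 1 / 4 ≤ tent (u - 1 / 2) := by
  by_contra hcon
  push Not at hcon
  obtain ⟨h1, h2⟩ := hcon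
  have h3 : Int.fract u < 1 / 4 ∨ 1 - Int.fract u < 1 / 4 := by
    rcases min_lt_iff.mp h1 with h | h
    · exact Or.inl h
    · exact Or.inr h
  have h0 := Int.fract_nonneg u
  have h0' := Int.fract_lt_one u
  have hu : u = ⌊u⌋ + Int.fract u := (Int.floor_add_fract u).symm
  rcases h3 with h3 | h3
  · -- fract u < 1/4 : u - 1/2 = (⌊u⌋ - 1) + (fract u + 1/2)
    have h4 : Int.fract (u - 1 / 2) = Int.fract u + 1 / 2 := by
      rw [Int.fract_eq_iff]
      refine ⟨by linarith, by linarith, ⌊u⌋ - 1, ?_⟩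
      push_cast
      linarith
    unfold tent at h2
    rw [h4] at h2
    rcases min_lt_iff.mp h2 with h | h <;> linarith
  · have h4 : Int.fract (u - 1 / 2) = Int.fract u - 1 / 2 := by
      rw [Int.fract_eq_iff]
      refine ⟨by linarith, by linarith, ⌊u⌋, ?_⟩
      linarith
    unfold tent at h2
    rw [h4] at h2
    rcases min_lt_iff.mp h2 with h | h <;> linarith

/-! ### The character -/

/-- `ee t = exp (2 π i t)`. -/
noncomputable def ee (t : ℝ) : ℂ := Complex.exp (Complex.I * ((2 * Real.pi * t : ℝ) : ℂ))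

lemma ee_add (s t : ℝ) : ee (s + t) = ee s * ee t := by
  unfold ee
  rw [← Complex.exp_add]
  congr 1
  push_cast
  ring

lemma norm_ee (t : ℝ) : ‖ee t‖ = 1 := by
  unfold ee
  rw [mul_comm]
  exact Complex.norm_exp_ofReal_mul_I _

lemma ee_zero : ee 0 = 1 := by simp [ee]

lemma ee_int (n : ℤ) : ee (n : ℝ) = 1 := by
  unfold ee
  rw [Complex.exp_eq_one_iff]
  exact ⟨n, by push_cast; ring⟩

lemma norm_ee_sub_one (t : ℝ) : ‖ee t - 1‖ = 2 * |Real.sin (Real.pi * t)| := by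
  unfold ee
  rw [Complex.norm_exp_I_mul_ofReal_sub_one]
  rw [show 2 * Real.pi * t / 2 = Real.pi * t by ring]
  rw [Real.norm_eq_abs, abs_mul]
  simp

lemma norm_ee_sub_one_le (t : ℝ) : ‖ee t - 1‖ ≤ 2 * Real.pi * |t| := by
  rw [norm_ee_sub_one]
  have h1 : |Real.sin (Real.pi * t)| ≤ |Real.pi * t| := Real.abs_sin_le_abs
  rw [abs_mul, abs_of_pos Real.pi_pos] at h1
  linarith

lemma norm_ee_sub_one_le_two (t : ℝ) : ‖ee t - 1‖ ≤ 2 := by
  rw [norm_ee_sub_one]
  have := Real.abs_sin_le_one (Real.pi * t)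
  linarith

lemma le_norm_ee_sub_one {t : ℝ} (ht : |t| ≤ 1 / 2) : 4 * |t| ≤ ‖ee t - 1‖ := by
  rw [norm_ee_sub_one]
  have hpi := Real.pi_pos
  have h0 : |Real.sin (Real.pi * t)| = Real.sin (Real.pi * |t|) := by
    rcases le_total 0 t with h | h
    · rw [abs_of_nonneg h, abs_of_nonneg]
      refine Real.sin_nonneg_of_nonneg_of_le_pi (by positivity) ?_
      rw [abs_of_nonneg h] at ht
      nlinarith
    · rw [abs_of_nonpos h] at ht ⊢
      have h1 : Real.pi * t = -(Real.pi * -t) := by ring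
      rw [h1, Real.sin_neg, abs_neg, abs_of_nonneg]
      refine Real.sin_nonneg_of_nonneg_of_le_pi (mul_nonneg hpi.le (by linarith)) ?_
      nlinarith
  rw [h0]
  have h1 := Real.mul_le_sin (x := Real.pi * |t|) (by positivity) (by nlinarith)
  have h2 : 2 / Real.pi * (Real.pi * |t|) = 2 * |t| := by
    field_simp
  rw [h2] at h1
  linarith

/-! ### The function at one scale -/

/-- The function at scale `L`: `L * tent (x/L - δ) * ee (z / L^2 - ⌊x/L - δ⌋ y / L)`. -/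
noncomputable def gg (L δ : ℝ) (x y z : ℤ) : ℂ :=
  ((L * tent (x / L - δ) : ℝ) : ℂ) * ee (z / L ^ 2 - ⌊(x / L - δ : ℝ)⌋ * y / L)

lemma norm_gg_a {L δ : ℝ} (hL : 0 < L) (x y z : ℤ) :
    ‖gg L δ (x + 1) y z - gg L δ x y z‖ ≤ 1 := by
  set u : ℝ := x / L - δ with hu
  set v : ℝ := ((x + 1 : ℤ) : ℝ) / L - δ with hv
  have huv : v - u = 1 / L := by
    rw [hu, hv]; push_cast; ring
  have hL1 : 0 < 1 / L := by positivity
  by_cases h : ⌊v⌋ = ⌊u⌋
  · have h1 : gg L δ (x + 1) y z - gg L δ x y z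
        = ((L * tent v - L * tent u : ℝ) : ℂ) * ee (z / L ^ 2 - ⌊u⌋ * y / L) := by
      unfold gg
      rw [← hu, ← hv, h]
      push_cast
      ring
    rw [h1, norm_mul, norm_ee, mul_one, Complex.norm_real, Real.norm_eq_abs, ← mul_sub, abs_mul,
      abs_of_pos hL]
    have h2 := tent_sub_of_floor_eq h
    rw [huv, abs_of_pos hL1] at h2
    calc L * |tent v - tent u| ≤ L * (1 / L) := by gcongr
      _ = 1 := by field_simp
  · have h2 := tent_add_of_floor_ne (u := u) (v := v) (by linarith) (fun e => h e.symm)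
    rw [huv] at h2
    refine (norm_sub_le _ _).trans ?_
    unfold gg
    rw [← hu, ← hv, norm_mul, norm_mul, norm_ee, norm_ee, mul_one, mul_one, Complex.norm_real,
      Complex.norm_real, Real.norm_eq_abs, Real.norm_eq_abs, abs_mul, abs_mul, abs_of_pos hL,
      abs_of_nonneg (tent_nonneg _), abs_of_nonneg (tent_nonneg _)]
    calc L * tent v + L * tent u = L * (tent u + tent v) := by ring
      _ ≤ L * (1 / L) := by gcongr
      _ = 1 := by field_simp

lemma norm_gg_b {L δ : ℝ} (hL : 0 < L) (hδ0 : 0 ≤ δ) (hδ : δ ≤ 1 / 2) (x y z : ℤ) :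
    ‖gg L δ x (y + 1) (z + x) - gg L δ x y z‖ ≤ 5 := by
  set u : ℝ := x / L - δ with hu
  have h1 : gg L δ x (y + 1) (z + x) - gg L δ x y z
      = ((L * tent u : ℝ) : ℂ) * (ee (z / L ^ 2 - ⌊u⌋ * y / L)
          * (ee (x / L ^ 2 - ⌊u⌋ / L) - 1)) := by
    unfold gg
    rw [← hu]
    have : (((z + x : ℤ) : ℝ) / L ^ 2 - ⌊u⌋ * ((y + 1 : ℤ) : ℝ) / L)
        = (z / L ^ 2 - ⌊u⌋ * y / L) + (x / L ^ 2 - ⌊u⌋ / L) := by
      push_cast; ring
    rw [this, ee_add]
    ring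
  rw [h1, norm_mul, norm_mul, norm_ee, one_mul, Complex.norm_real, Real.norm_eq_abs, abs_mul,
    abs_of_pos hL, abs_of_nonneg (tent_nonneg _)]
  have h2 := norm_ee_sub_one_le (x / L ^ 2 - ⌊u⌋ / L)
  have h3 : (x / L ^ 2 - ⌊u⌋ / L : ℝ) = (Int.fract u + δ) / L := by
    have : Int.fract u = u - ⌊u⌋ := rfl
    rw [this, hu]
    field_simp
    ring
  have h4 : 0 ≤ Int.fract u + δ := add_nonneg (Int.fract_nonneg _) hδ0
  have h5 : Int.fract u + δ ≤ 3 / 2 := by linarith [Int.fract_lt_one u]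
  rw [h3, abs_div, abs_of_nonneg h4, abs_of_pos hL] at h2
  have h6 := tent_le_half u
  have h7 := tent_nonneg u
  have hpi := Real.pi_lt_d2
  have hpi0 := Real.pi_pos
  rw [h3]
  calc L * tent u * ‖ee ((Int.fract u + δ) / L) - 1‖
      ≤ L * (1 / 2) * (2 * Real.pi * ((Int.fract u + δ) / L)) := by gcongr
    _ = Real.pi * (Int.fract u + δ) := by field_simp
    _ ≤ Real.pi * (3 / 2) := by gcongr
    _ ≤ 5 := by nlinarith

lemma gg_add_mul {L δ : ℝ} (hL : 0 < L) {m : ℤ} (x y z : ℤ) (k : ℤ) (hm : (m : ℝ) = L ^ 2 * k) :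
    gg L δ x y (z + m) = gg L δ x y z := by
  unfold gg
  congr 1
  have : (((z + m : ℤ) : ℝ) / L ^ 2 - ⌊(x / L - δ : ℝ)⌋ * y / L)
      = (z / L ^ 2 - ⌊(x / L - δ : ℝ)⌋ * y / L) + (k : ℝ) := by
    push_cast
    rw [hm]
    field_simp
    ring
  rw [this, ee_add, ee_int, mul_one]

/-- Exact formula for the difference at two heights of the same fibre. -/
lemma norm_gg_sub {L δ : ℝ} (hL : 0 < L) (x y z D : ℤ) :
    ‖gg L δ x y (z + D) - gg L δ x y z‖ = L * tent (x / L - δ) * ‖ee (D / L ^ 2) - 1‖ := by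
  set u : ℝ := x / L - δ with hu
  have h1 : gg L δ x y (z + D) - gg L δ x y z
      = ((L * tent u : ℝ) : ℂ) * (ee (z / L ^ 2 - ⌊u⌋ * y / L)
          * (ee (D / L ^ 2) - 1)) := by
    unfold gg
    rw [← hu]
    have : (((z + D : ℤ) : ℝ) / L ^ 2 - ⌊u⌋ * y / L)
        = (z / L ^ 2 - ⌊u⌋ * y / L) + (D / L ^ 2) := by
      push_cast; ring
    rw [this, ee_add]
    ring
  rw [h1, norm_mul, norm_mul, norm_ee, one_mul, Complex.norm_real, Real.norm_eq_abs, abs_mul,
    abs_of_pos hL, abs_of_nonneg (tent_nonneg _)]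

end Pool.Agent.H.MP_2c2cb6_an
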