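import Pool.Agent.H.MP_2c2cb6_an.Emb

set_option autoImplicit false

namespace Pool.Agent.H.MP_2c2cb6_an

open Finset

/-- The scale `2^(8 i + r + 1)`. -/
noncomputable def scl (r i : ℕ) : ℝ := 2 ^ (8 * i + r + 1)

lemma scl_pos (r i : ℕ) : 0 < scl r i := by unfold scl; positivity

lemma scl_sq (r i : ℕ) : scl r i ^ 2 = 4 ^ (8 * i + r + 1) := by
  unfold scl
  rw [← pow_mul, mul_comm (8 * i + r + 1) 2, pow_mul]
  norm_num

/-- The weighted sum over the scales congruent to `r + 1` modulo `8`. -/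
noncomputable def ff (n r : ℕ) (δ : ℝ) (x y z : ℤ) : ℂ :=
  ∑ i ∈ range n, (((1 / 16 : ℝ) ^ i : ℝ) : ℂ) * gg (scl r i) δ x y z

lemma sum_pow_le (n : ℕ) : ∑ i ∈ range n, (1 / 16 : ℝ) ^ i ≤ 2 := by
  have h : ∀ n : ℕ, ∑ i ∈ range n, (1 / 16 : ℝ) ^ i = 16 / 15 * (1 - (1 / 16 : ℝ) ^ n) := by
    intro n
    induction n with
    | zero => simp
    | succ n ih =>
      rw [sum_range_succ, ih, pow_succ]
      ring
  have := h n
  have h2 : (0 : ℝ) < (1 / 16) ^ n := by positivity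
  linarith

lemma norm_wsum_le (n : ℕ) (C : ℝ) (G : ℕ → ℂ) (hG : ∀ i, ‖G i‖ ≤ C) :
    ‖∑ i ∈ range n, (((1 / 16 : ℝ) ^ i : ℝ) : ℂ) * G i‖ ≤ 2 * C := by
  have hC : 0 ≤ C := (norm_nonneg _).trans (hG 0)
  calc ‖∑ i ∈ range n, (((1 / 16 : ℝ) ^ i : ℝ) : ℂ) * G i‖
      ≤ ∑ i ∈ range n, ‖(((1 / 16 : ℝ) ^ i : ℝ) : ℂ) * G i‖ := norm_sum_le _ _
    _ ≤ ∑ i ∈ range n, (1 / 16 : ℝ) ^ i * C := by
        refine sum_le_sum fun i _ => ?_
        rw [norm_mul, Complex.norm_real, Real.norm_eq_abs, abs_of_pos (by positivity)]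
        have := hG i
        gcongr
    _ = (∑ i ∈ range n, (1 / 16 : ℝ) ^ i) * C := by rw [sum_mul]
    _ ≤ 2 * C := by
        have := sum_pow_le n
        gcongr

lemma norm_ff_a (n r : ℕ) (δ : ℝ) (x y z : ℤ) :
    ‖ff n r δ (x + 1) y z - ff n r δ x y z‖ ≤ 2 := by
  unfold ff
  rw [← sum_sub_distrib]
  simp_rw [← mul_sub]
  have := norm_wsum_le n 1 (fun i => gg (scl r i) δ (x + 1) y z - gg (scl r i) δ x y z)
    (fun i => norm_gg_a (scl_pos r i) x y z)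
  linarith

lemma norm_ff_b (n r : ℕ) {δ : ℝ} (hδ0 : 0 ≤ δ) (hδ : δ ≤ 1 / 2) (x y z : ℤ) :
    ‖ff n r δ x (y + 1) (z + x) - ff n r δ x y z‖ ≤ 10 := by
  unfold ff
  rw [← sum_sub_distrib]
  simp_rw [← mul_sub]
  have := norm_wsum_le n 5 (fun i => gg (scl r i) δ x (y + 1) (z + x) - gg (scl r i) δ x y z)
    (fun i => norm_gg_b (scl_pos r i) hδ0 hδ x y z)
  linarith

lemma ff_add_mul {n r : ℕ} (hr : r < 8) (δ : ℝ) (x y z k : ℤ) :
    ff n r δ x y (z + 4 ^ (8 * n) * k) = ff n r δ x y z := by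
  unfold ff
  refine sum_congr rfl fun i hi => ?_
  congr 1
  have hi' : i < n := mem_range.mp hi
  refine gg_add_mul (scl_pos r i) x y z (4 ^ (8 * n - (8 * i + r + 1)) * k) ?_
  rw [scl_sq]
  push_cast
  rw [← mul_assoc, ← pow_add]
  congr 2
  omega

lemma ff_congr {n r : ℕ} (hr : r < 8) (δ : ℝ) (x y : ℤ) {z z' : ℤ}
    (h : z ≡ z' [ZMOD 4 ^ (8 * n)]) : ff n r δ x y z = ff n r δ x y z' := by
  obtain ⟨k, hk⟩ := h.symm.dvd
  have : z = z' + 4 ^ (8 * n) * k := by linarith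
  rw [this, ff_add_mul hr]

lemma sum_sixteen (n : ℕ) : ∑ i ∈ range n, (16 : ℝ) ^ i ≤ 16 ^ n / 15 := by
  induction n with
  | zero => simp
  | succ n ih =>
    rw [sum_range_succ, pow_succ]
    linarith

lemma sum_4096 (n : ℕ) : ∑ i ∈ range n, (1 / 4096 : ℝ) ^ (i + 1) ≤ 1 / 4095 := by
  have h : ∀ n : ℕ, ∑ i ∈ range n, (1 / 4096 : ℝ) ^ (i + 1) = (1 - (1 / 4096 : ℝ) ^ n) / 4095 := by
    intro n
    induction n with
    | zero => simp
    | succ n ih =>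
      rw [sum_range_succ, ih, pow_succ]
      ring
  rw [h]
  have : (0 : ℝ) < (1 / 4096) ^ n := by positivity
  linarith

lemma weight_scl (r i : ℕ) : (1 / 16 : ℝ) ^ i * scl r i = 2 ^ (r + 1) * 16 ^ i := by
  unfold scl
  rw [show 8 * i + r + 1 = 8 * i + (r + 1) by ring, pow_add, pow_mul,
    show ((2 : ℝ) ^ 8) = 16 * 16 by norm_num, mul_pow]
  have : (1 / 16 : ℝ) ^ i * 16 ^ i = 1 := by rw [← mul_pow]; norm_num
  calc (1 / 16 : ℝ) ^ i * (16 ^ i * 16 ^ i * 2 ^ (r + 1))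
      = ((1 / 16 : ℝ) ^ i * 16 ^ i) * (2 ^ (r + 1) * 16 ^ i) := by ring
    _ = _ := by rw [this, one_mul]

/-- The main separation estimate at the resonant scale `(i, r)`. -/
lemma sep_aux {n r i : ℕ} (hi : i < n) {δ : ℝ} (x y z D : ℤ)
    (hδ : 1 / 4 ≤ tent (x / scl r i - δ))
    (h1 : scl r i ^ 2 ≤ 8 * |(D : ℝ)|) (h2 : 2 * |(D : ℝ)| ≤ scl r i ^ 2) :
    2 ^ (r + 1) * (16 : ℝ) ^ i * (1 / 20) ≤ ‖ff n r δ x y (z + D) - ff n r δ x y z‖ := by
  obtain ⟨m, rfl⟩ : ∃ m, n = (i + 1) + m := ⟨n - (i + 1), by omega⟩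
  have hdiff : ff ((i + 1) + m) r δ x y (z + D) - ff ((i + 1) + m) r δ x y z
      = ∑ j ∈ range ((i + 1) + m), (((1 / 16 : ℝ) ^ j : ℝ) : ℂ)
          * (gg (scl r j) δ x y (z + D) - gg (scl r j) δ x y z) := by
    unfold ff
    rw [← sum_sub_distrib]
    simp_rw [← mul_sub]
  rw [hdiff, sum_range_add, sum_range_succ]
  set t : ℕ → ℂ := fun j => (((1 / 16 : ℝ) ^ j : ℝ) : ℂ)
          * (gg (scl r j) δ x y (z + D) - gg (scl r j) δ x y z) with ht
  have hnorm : ∀ j, ‖t j‖ = 2 ^ (r + 1) * 16 ^ j * tent (x / scl r j - δ)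
      * ‖ee (D / scl r j ^ 2) - 1‖ := by
    intro j
    rw [ht]
    simp only
    rw [norm_mul, Complex.norm_real, Real.norm_eq_abs, abs_of_pos (by positivity),
      norm_gg_sub (scl_pos r j), ← mul_assoc, ← mul_assoc, weight_scl]
  -- lower scales
  have hlow : ‖∑ j ∈ range i, t j‖ ≤ 2 ^ (r + 1) * (16 ^ i / 15) := by
    calc ‖∑ j ∈ range i, t j‖ ≤ ∑ j ∈ range i, ‖t j‖ := norm_sum_le _ _
      _ ≤ ∑ j ∈ range i, 2 ^ (r + 1) * (16 : ℝ) ^ j := by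
          refine sum_le_sum fun j _ => ?_
          rw [hnorm]
          have e1 := tent_le_half (x / scl r j - δ)
          have e2 := norm_ee_sub_one_le_two (D / scl r j ^ 2)
          have e0 := tent_nonneg (x / scl r j - δ)
          calc 2 ^ (r + 1) * (16 : ℝ) ^ j * tent (x / scl r j - δ) * ‖ee (D / scl r j ^ 2) - 1‖
              ≤ 2 ^ (r + 1) * (16 : ℝ) ^ j * (1 / 2) * 2 := by gcongr
            _ = 2 ^ (r + 1) * (16 : ℝ) ^ j := by ring
      _ = 2 ^ (r + 1) * ∑ j ∈ range i, (16 : ℝ) ^ j := by rw [mul_sum]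
      _ ≤ 2 ^ (r + 1) * (16 ^ i / 15) := by
          have := sum_sixteen i
          gcongr
  -- higher scales
  have hhigh : ‖∑ j ∈ range m, t (i + 1 + j)‖ ≤ 2 ^ (r + 1) * 16 ^ i * (2 * (1 / 4095)) := by
    calc ‖∑ j ∈ range m, t (i + 1 + j)‖ ≤ ∑ j ∈ range m, ‖t (i + 1 + j)‖ := norm_sum_le _ _
      _ ≤ ∑ j ∈ range m, 2 ^ (r + 1) * 16 ^ i * (2 * (1 / 4096 : ℝ) ^ (j + 1)) := by
          refine sum_le_sum fun j _ => ?_
          rw [hnorm]
          have e1 := tent_le_half (x / scl r (i + 1 + j) - δ)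
          have e0 := tent_nonneg (x / scl r (i + 1 + j) - δ)
          have e2 := norm_ee_sub_one_le (D / scl r (i + 1 + j) ^ 2)
          have hp : 0 < scl r (i + 1 + j) ^ 2 := by have := scl_pos r (i + 1 + j); positivity
          rw [abs_div, abs_of_pos hp] at e2
          have hs : scl r (i + 1 + j) ^ 2 = scl r i ^ 2 * 65536 ^ (j + 1) := by
            rw [scl_sq, scl_sq, show (65536 : ℝ) = 4 ^ 8 by norm_num, ← pow_mul, ← pow_add]
            congr 1; ring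
          have e3 : |(D : ℝ)| / scl r (i + 1 + j) ^ 2 ≤ 1 / 2 * (1 / 65536) ^ (j + 1) := by
            rw [hs, div_le_iff₀ (by have := scl_pos r i; positivity)]
            have : 1 / 2 * (1 / 65536 : ℝ) ^ (j + 1) * (scl r i ^ 2 * 65536 ^ (j + 1))
                = 1 / 2 * scl r i ^ 2 := by
              have : (1 / 65536 : ℝ) ^ (j + 1) * 65536 ^ (j + 1) = 1 := by
                rw [← mul_pow]; norm_num
              calc 1 / 2 * (1 / 65536 : ℝ) ^ (j + 1) * (scl r i ^ 2 * 65536 ^ (j + 1))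
                  = 1 / 2 * scl r i ^ 2 * ((1 / 65536 : ℝ) ^ (j + 1) * 65536 ^ (j + 1)) := by ring
                _ = _ := by rw [this, mul_one]
            rw [this]
            linarith
          have hpi := Real.pi_lt_d2
          have hpi0 := Real.pi_pos
          have e4 : ‖ee (D / scl r (i + 1 + j) ^ 2) - 1‖ ≤ 4 * (1 / 65536) ^ (j + 1) := by
            calc ‖ee (D / scl r (i + 1 + j) ^ 2) - 1‖
                ≤ 2 * Real.pi * (|(D : ℝ)| / scl r (i + 1 + j) ^ 2) := e2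
              _ ≤ 2 * 4 * (1 / 2 * (1 / 65536) ^ (j + 1)) := by
                  have : Real.pi ≤ 4 := by linarith
                  gcongr
              _ = 4 * (1 / 65536) ^ (j + 1) := by ring
          calc 2 ^ (r + 1) * (16 : ℝ) ^ (i + 1 + j) * tent (x / scl r (i + 1 + j) - δ)
                * ‖ee (D / scl r (i + 1 + j) ^ 2) - 1‖
              ≤ 2 ^ (r + 1) * (16 : ℝ) ^ (i + 1 + j) * (1 / 2)
                * (4 * (1 / 65536) ^ (j + 1)) := by gcongr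
            _ = 2 ^ (r + 1) * 16 ^ i * (2 * ((16 : ℝ) ^ (j + 1) * (1 / 65536) ^ (j + 1))) := by
                rw [show i + 1 + j = i + (j + 1) by ring, pow_add]; ring
            _ = 2 ^ (r + 1) * 16 ^ i * (2 * (1 / 4096 : ℝ) ^ (j + 1)) := by
                rw [← mul_pow]; norm_num
      _ = 2 ^ (r + 1) * 16 ^ i * (2 * ∑ j ∈ range m, (1 / 4096 : ℝ) ^ (j + 1)) := by
          rw [mul_sum, mul_sum]
      _ ≤ 2 ^ (r + 1) * 16 ^ i * (2 * (1 / 4095)) := by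
          have := sum_4096 m
          gcongr
  -- main scale
  have hmain : 2 ^ (r + 1) * 16 ^ i * (1 / 8) ≤ ‖t i‖ := by
    rw [hnorm]
    have hp : 0 < scl r i ^ 2 := by have := scl_pos r i; positivity
    have e1 : |(D / scl r i ^ 2 : ℝ)| ≤ 1 / 2 := by
      rw [abs_div, abs_of_pos hp, div_le_iff₀ hp]; linarith
    have e2 : 1 / 8 ≤ |(D / scl r i ^ 2 : ℝ)| := by
      rw [abs_div, abs_of_pos hp, le_div_iff₀ hp]; linarith
    have e3 := le_norm_ee_sub_one e1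
    have e4 : 1 / 2 ≤ ‖ee (D / scl r i ^ 2) - 1‖ := by linarith
    calc 2 ^ (r + 1) * (16 : ℝ) ^ i * (1 / 8) = 2 ^ (r + 1) * (16 : ℝ) ^ i * (1 / 4) * (1 / 2) := by
          ring
      _ ≤ _ := by gcongr
  have hfin : ‖t i‖ ≤ ‖(∑ j ∈ range i, t j) + t i + ∑ j ∈ range m, t (i + 1 + j)‖
      + ‖∑ j ∈ range i, t j‖ + ‖∑ j ∈ range m, t (i + 1 + j)‖ := by
    calc ‖t i‖ = ‖((∑ j ∈ range i, t j) + t i + ∑ j ∈ range m, t (i + 1 + j))
          - (∑ j ∈ range i, t j) - ∑ j ∈ range m, t (i + 1 + j)‖ := by congr 1; ring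
      _ ≤ ‖((∑ j ∈ range i, t j) + t i + ∑ j ∈ range m, t (i + 1 + j))
          - (∑ j ∈ range i, t j)‖ + ‖∑ j ∈ range m, t (i + 1 + j)‖ := norm_sub_le _ _
      _ ≤ _ := by gcongr; exact norm_sub_le _ _
  have hpos : (0 : ℝ) < 2 ^ (r + 1) * 16 ^ i := by positivity
  have : 2 ^ (r + 1) * (16 : ℝ) ^ i * (1 / 20) + 2 ^ (r + 1) * (16 ^ i / 15)
      + 2 ^ (r + 1) * 16 ^ i * (2 * (1 / 4095)) ≤ 2 ^ (r + 1) * 16 ^ i * (1 / 8) := by
    nlinarith
  linarith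

/-- Separation of two heights in the same fibre. -/
lemma sep {n : ℕ} (x y z D : ℤ) (hD : 4 ^ 10 ≤ |D|) (hD2 : 2 * |D| ≤ 4 ^ (8 * n)) :
    ∃ r < 8, ∃ δ : ℝ, (δ = 0 ∨ δ = 1 / 2) ∧
      2 ≤ ‖ff n r δ x y (z + D) - ff n r δ x y z‖ := by
  have hex : ∃ κ : ℕ, 2 * |D| ≤ 4 ^ κ := ⟨8 * n, hD2⟩
  classical
  set κ := Nat.find hex with hκ
  have hκ1 : 2 * |D| ≤ 4 ^ κ := Nat.find_spec hex
  have hκ2 : κ ≤ 8 * n := Nat.find_min' hex hD2
  have hκ3 : 10 < κ := by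
    by_contra hcon
    push Not at hcon
    have : (4 : ℤ) ^ κ ≤ 4 ^ 10 := pow_le_pow_right₀ (by norm_num) hcon
    have h0 : (0 : ℤ) < 4 ^ 10 := by positivity
    linarith
  have hκ4 : (4 : ℤ) ^ κ < 8 * |D| := by
    have := Nat.find_min hex (m := κ - 1) (by omega)
    push Not at this
    have h4 : (4 : ℤ) ^ κ = 4 ^ (κ - 1) * 4 := by
      rw [← pow_succ]; congr 1; omega
    rw [h4]; linarith
  set i := (κ - 1) / 8 with hi
  set r := (κ - 1) % 8 with hr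
  have hir : 8 * i + r + 1 = κ := by omega
  have hr8 : r < 8 := Nat.mod_lt _ (by norm_num)
  have hin : i < n := by omega
  have hs : scl r i ^ 2 = 4 ^ κ := by rw [scl_sq, hir]
  have h1 : scl r i ^ 2 ≤ 8 * |(D : ℝ)| := by
    rw [hs]; exact_mod_cast hκ4.le
  have h2 : 2 * |(D : ℝ)| ≤ scl r i ^ 2 := by
    rw [hs]; exact_mod_cast hκ1
  have hbig : (2 : ℝ) ≤ 2 ^ (r + 1) * (16 : ℝ) ^ i * (1 / 20) := by
    have : (40 : ℝ) ≤ 2 ^ (r + 1) * (16 : ℝ) ^ i := by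
      rcases Nat.lt_or_ge i 2 with h | h
      · have hi1 : i = 1 := by omega
        have hr1 : 1 ≤ r := by omega
        rw [hi1]
        have : (2 : ℝ) ^ 2 ≤ 2 ^ (r + 1) := pow_le_pow_right₀ (by norm_num) (by omega)
        linarith
      · have e1 : (16 : ℝ) ^ 2 ≤ 16 ^ i := pow_le_pow_right₀ (by norm_num) h
        have e2 : (1 : ℝ) ≤ 2 ^ (r + 1) := one_le_pow₀ (by norm_num)
        nlinarith
    linarith
  rcases tent_or (x / scl r i) with h | h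
  · refine ⟨r, hr8, 0, Or.inl rfl, hbig.trans (sep_aux hin x y z D ?_ h1 h2)⟩
    simpa using h
  · exact ⟨r, hr8, 1 / 2, Or.inr rfl, hbig.trans (sep_aux hin x y z D h h1 h2)⟩

end Pool.Agent.H.MP_2c2cb6_an
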