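import Pool.Agent.H.MP_2c2cb6_an.Emb2

set_option autoImplicit false

namespace Pool.Agent.H.MP_2c2cb6_an

open Finset

/-- The phase attached to a Boolean. -/
noncomputable def dl (b : Bool) : ℝ := if b then 1 / 2 else 0

lemma dl_nonneg (b : Bool) : 0 ≤ dl b := by unfold dl; split <;> norm_num

lemma dl_le (b : Bool) : dl b ≤ 1 / 2 := by unfold dl; split <;> norm_num

/-- The index type of the coordinates. -/
abbrev Idx : Type := Fin 3 ⊕ (Fin 8 × Bool × Bool)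

/-- The coordinates. -/
noncomputable def FF (n : ℕ) (x y z : ℤ) : Idx → ℤ
  | Sum.inl 0 => x
  | Sum.inl 1 => y
  | Sum.inl 2 => z % 4 ^ 10
  | Sum.inr (r, b, true) => ⌊(ff n r (dl b) x y z).re⌋
  | Sum.inr (r, b, false) => ⌊(ff n r (dl b) x y z).im⌋

lemma abs_floor_sub_le {s t C : ℝ} (h : |s - t| ≤ C) {K : ℤ} (hK : C + 1 ≤ K) :
    |⌊s⌋ - ⌊t⌋| ≤ K := by
  have h1 := Int.floor_le s
  have h2 := Int.lt_floor_add_one s
  have h3 := Int.floor_le t
  have h4 := Int.lt_floor_add_one t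
  rw [abs_le] at h ⊢
  have h5 : ((⌊s⌋ - ⌊t⌋ : ℤ) : ℝ) ≤ K := by push_cast; linarith [h.2]
  have h6 : (-(K : ℝ)) ≤ ((⌊s⌋ - ⌊t⌋ : ℤ) : ℝ) := by push_cast; linarith [h.1]
  constructor
  · exact_mod_cast h6
  · exact_mod_cast h5

lemma abs_emod_sub_le (s t : ℤ) : |s % 4 ^ 10 - t % 4 ^ 10| ≤ 4 ^ 10 := by
  have h1 := Int.emod_nonneg s (show (4 ^ 10 : ℤ) ≠ 0 by norm_num)
  have h2 := Int.emod_lt_of_pos s (show (0 : ℤ) < 4 ^ 10 by norm_num)
  have h3 := Int.emod_nonneg t (show (4 ^ 10 : ℤ) ≠ 0 by norm_num)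
  have h4 := Int.emod_lt_of_pos t (show (0 : ℤ) < 4 ^ 10 by norm_num)
  rw [abs_le]
  constructor <;> linarith

lemma FF_a (n : ℕ) (x y z : ℤ) (j : Idx) : |FF n (x + 1) y z j - FF n x y z j| ≤ 4 ^ 10 := by
  rcases j with j | ⟨r, b, c⟩
  · fin_cases j
    · simp [FF]
    · simp [FF]
    · exact abs_emod_sub_le _ _
  · have h := norm_ff_a n r (dl b) x y z
    cases c
    · refine abs_floor_sub_le (C := 2) ?_ (by norm_num)
      rw [← Complex.sub_im]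
      exact (Complex.abs_im_le_norm _).trans h
    · refine abs_floor_sub_le (C := 2) ?_ (by norm_num)
      rw [← Complex.sub_re]
      exact (Complex.abs_re_le_norm _).trans h

lemma FF_b (n : ℕ) (x y z : ℤ) (j : Idx) :
    |FF n x (y + 1) (z + x) j - FF n x y z j| ≤ 4 ^ 10 := by
  rcases j with j | ⟨r, b, c⟩
  · fin_cases j
    · simp [FF]
    · simp [FF]
    · exact abs_emod_sub_le _ _
  · have h := norm_ff_b n r (dl_nonneg b) (dl_le b) x y z
    cases c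
    · refine abs_floor_sub_le (C := 10) ?_ (by norm_num)
      rw [← Complex.sub_im]
      exact (Complex.abs_im_le_norm _).trans h
    · refine abs_floor_sub_le (C := 10) ?_ (by norm_num)
      rw [← Complex.sub_re]
      exact (Complex.abs_re_le_norm _).trans h

lemma FF_congr {n : ℕ} (hn : 2 ≤ n) (x y : ℤ) {z z' : ℤ} (h : z ≡ z' [ZMOD 4 ^ (8 * n)]) :
    FF n x y z = FF n x y z' := by
  funext j
  rcases j with j | ⟨r, b, c⟩
  · fin_cases j
    · rfl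
    · rfl
    · exact h.of_dvd (pow_dvd_pow 4 (by omega))
  · cases c
    · simp only [FF]; rw [ff_congr r.2 (dl b) x y h]
    · simp only [FF]; rw [ff_congr r.2 (dl b) x y h]

lemma abs_sub_lt_one_of_floor_eq {s t : ℝ} (h : ⌊s⌋ = ⌊t⌋) : |s - t| < 1 :=
  Int.abs_sub_lt_one_of_floor_eq_floor h

lemma FF_inj {n : ℕ} (hn : 2 ≤ n) {x y z x' y' z' : ℤ} (h : FF n x y z = FF n x' y' z') :
    x = x' ∧ y = y' ∧ z ≡ z' [ZMOD 4 ^ (8 * n)] := by
  have hx : x = x' := congrFun h (Sum.inl 0)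
  have hy : y = y' := congrFun h (Sum.inl 1)
  have hz : z % 4 ^ 10 = z' % 4 ^ 10 := congrFun h (Sum.inl 2)
  subst hx hy
  refine ⟨rfl, rfl, ?_⟩
  by_contra hcon
  set N : ℕ := 4 ^ (8 * n) with hN
  have hNZ : ((N : ℕ) : ℤ) = 4 ^ (8 * n) := by rw [hN]; push_cast; rfl
  have hNpos : 0 < N := by rw [hN]; positivity
  set D : ℤ := Int.bmod (z' - z) N with hD
  have hD1 : (z' - z) ≡ D [ZMOD N] := by
    rw [hD]; unfold Int.ModEq; exact (Int.bmod_emod).symm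
  have hD2 : 2 * |D| ≤ 4 ^ (8 * n) := by
    rw [← hNZ]
    have e1 := Int.le_bmod (x := z' - z) hNpos
    have e2 := Int.bmod_lt (x := z' - z) hNpos
    rw [← hD] at e1 e2
    have : |D| ≤ N / 2 := by
      rw [abs_le]
      constructor
      · omega
      · omega
    omega
  have hdvd : (4 ^ 10 : ℤ) ∣ (N : ℤ) := by rw [hNZ]; exact pow_dvd_pow 4 (by omega)
  have hD3 : (4 ^ 10 : ℤ) ∣ D := by
    have e1 : (z' - z) ≡ D [ZMOD 4 ^ 10] := hD1.of_dvd hdvd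
    have e2 : (4 ^ 10 : ℤ) ∣ z' - z := Int.ModEq.dvd hz
    exact Int.modEq_zero_iff_dvd.mp (e1.symm.trans (Int.modEq_zero_iff_dvd.mpr e2))
  have hD0 : D ≠ 0 := by
    intro h0
    apply hcon
    rw [h0, hNZ] at hD1
    have : (4 ^ (8 * n) : ℤ) ∣ z' - z := Int.modEq_zero_iff_dvd.mp hD1
    exact (Int.modEq_iff_dvd).mpr this
  have hD4 : 4 ^ 10 ≤ |D| := Int.le_of_dvd (abs_pos.mpr hD0) ((dvd_abs _ _).mpr hD3)
  obtain ⟨r, hr, δ, hδ, hsep⟩ := sep x y z D hD4 hD2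
  have hmod : z + D ≡ z' [ZMOD 4 ^ (8 * n)] := by
    rw [hNZ] at hD1
    have := (Int.ModEq.refl z).add hD1.symm
    simpa using this
  rw [ff_congr hr δ x y hmod] at hsep
  obtain ⟨b, hb⟩ : ∃ b : Bool, dl b = δ := by
    rcases hδ with h | h
    · exact ⟨false, by simp [dl, h]⟩
    · exact ⟨true, by simp [dl, h]⟩
  subst hb
  have h1 : ⌊(ff n r (dl b) x y z).re⌋ = ⌊(ff n r (dl b) x y z').re⌋ :=
    congrFun h (Sum.inr (⟨r, hr⟩, b, true))
  have h2 : ⌊(ff n r (dl b) x y z).im⌋ = ⌊(ff n r (dl b) x y z').im⌋ :=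
    congrFun h (Sum.inr (⟨r, hr⟩, b, false))
  have h3 := abs_sub_lt_one_of_floor_eq h1.symm
  have h4 := abs_sub_lt_one_of_floor_eq h2.symm
  have h5 := Complex.norm_le_abs_re_add_abs_im (ff n r (dl b) x y z' - ff n r (dl b) x y z)
  rw [Complex.sub_re, Complex.sub_im] at h5
  linarith

/-- The number of coordinates is 35. -/
noncomputable def idxEquiv : Idx ≃ Fin 35 := Fintype.equivFinOfCardEq (by decide)

/-- The embedding. -/
noncomputable def emb (n : ℕ) (hn : 2 ≤ n) : (ℤ × ℤ × ZMod (4 ^ (8 * n))) ↪ (Fin 35 → ℤ) where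
  toFun p := fun j => FF n p.1 p.2.1 (p.2.2.val : ℤ) (idxEquiv.symm j)
  inj' := by
    rintro ⟨x, y, z⟩ ⟨x', y', z'⟩ h
    have h' : FF n x y (z.val : ℤ) = FF n x' y' (z'.val : ℤ) := by
      funext j
      have := congrFun h (idxEquiv j)
      simpa using this
    obtain ⟨rfl, rfl, hz⟩ := FF_inj hn h'
    have hz' : (z.val : ℤ) ≡ z'.val [ZMOD ((4 ^ (8 * n) : ℕ) : ℤ)] := by
      push_cast; exact hz
    have h2 := (ZMod.intCast_eq_intCast_iff _ _ _).mpr hz'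
    have : NeZero (4 ^ (8 * n)) := ⟨by positivity⟩
    rw [Int.cast_natCast, Int.cast_natCast, ZMod.natCast_zmod_val, ZMod.natCast_zmod_val] at h2
    rw [h2]

lemma emb_apply (n : ℕ) (hn : 2 ≤ n) (x y : ℤ) (z : ZMod (4 ^ (8 * n))) (j : Fin 35) :
    emb n hn (x, y, z) j = FF n x y (z.val : ℤ) (idxEquiv.symm j) := rfl

/-- The generator `a`. -/
def pA (N : ℕ) : Equiv.Perm (ℤ × ℤ × ZMod N) where
  toFun p := (p.1 + 1, p.2.1, p.2.2)
  invFun p := (p.1 - 1, p.2.1, p.2.2)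
  left_inv p := by simp
  right_inv p := by simp

/-- The generator `b`. -/
def pB (N : ℕ) : Equiv.Perm (ℤ × ℤ × ZMod N) where
  toFun p := (p.1, p.2.1 + 1, p.2.2 + p.1)
  invFun p := (p.1, p.2.1 - 1, p.2.2 - p.1)
  left_inv p := by simp
  right_inv p := by simp

/-- The central element `c`. -/
def pC (N : ℕ) : Equiv.Perm (ℤ × ℤ × ZMod N) where
  toFun p := (p.1, p.2.1, p.2.2 + 1)
  invFun p := (p.1, p.2.1, p.2.2 - 1)
  left_inv p := by simp
  right_inv p := by simp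

lemma pC_eq (N : ℕ) : pB N * pA N * (pB N)⁻¹ * (pA N)⁻¹ = pC N := by
  ext p
  · simp [pA, pB, pC, Equiv.Perm.mul_def, Equiv.Perm.inv_def]
  · simp [pA, pB, pC, Equiv.Perm.mul_def, Equiv.Perm.inv_def]
  · simp [pA, pB, pC, Equiv.Perm.mul_def, Equiv.Perm.inv_def]
    ring

lemma pC_comm_pA (N : ℕ) : Commute (pC N) (pA N) := by
  ext p
  · simp [pA, pC]
  · simp [pA, pC]
  · simp [pA, pC]

lemma pC_comm_pB (N : ℕ) : Commute (pC N) (pB N) := by
  ext p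
  · simp [pB, pC]
  · simp [pB, pC]
  · simp [pB, pC]; ring

lemma pC_pow (N m : ℕ) (p : ℤ × ℤ × ZMod N) : (pC N ^ m) p = (p.1, p.2.1, p.2.2 + m) := by
  induction m generalizing p with
  | zero => simp
  | succ m ih =>
    rw [pow_succ, Equiv.Perm.mul_apply, ih]
    simp [pC]; ring

lemma pC_pow_ne_one {N m : ℕ} (hm : 0 < m) (hmN : m < N) : pC N ^ m ≠ 1 := by
  intro h
  have h1 := congrArg (fun e : Equiv.Perm (ℤ × ℤ × ZMod N) => (e (0, 0, 0)).2.2) h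
  simp only [pC_pow, Equiv.Perm.one_apply, zero_add] at h1
  have h2 : N ∣ m := (ZMod.natCast_eq_zero_iff _ _).mp h1
  exact absurd (Nat.le_of_dvd hm h2) (by omega)

lemma emb_pA (n : ℕ) (hn : 2 ≤ n) (p : ℤ × ℤ × ZMod (4 ^ (8 * n))) (j : Fin 35) :
    |emb n hn (pA _ p) j - emb n hn p j| ≤ 4 ^ 10 := by
  obtain ⟨x, y, z⟩ := p
  have h1 : pA (4 ^ (8 * n)) (x, y, z) = (x + 1, y, z) := rfl
  rw [h1, emb_apply, emb_apply]
  exact FF_a n x y _ _

lemma emb_pB (n : ℕ) (hn : 2 ≤ n) (p : ℤ × ℤ × ZMod (4 ^ (8 * n))) (j : Fin 35) :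
    |emb n hn (pB _ p) j - emb n hn p j| ≤ 4 ^ 10 := by
  obtain ⟨x, y, z⟩ := p
  have : NeZero (4 ^ (8 * n)) := ⟨by positivity⟩
  have h1 : pB (4 ^ (8 * n)) (x, y, z) = (x, y + 1, z + x) := rfl
  rw [h1, emb_apply, emb_apply]
  have h3 : (((z + (x : ZMod (4 ^ (8 * n)))).val : ℕ) : ℤ) ≡ (z.val : ℤ) + x
      [ZMOD 4 ^ (8 * n)] := by
    have h4 : (((z + (x : ZMod (4 ^ (8 * n)))).val : ℕ) : ℤ) ≡ (z.val : ℤ) + x
      [ZMOD ((4 ^ (8 * n) : ℕ) : ℤ)] := by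
      rw [← ZMod.intCast_eq_intCast_iff]
      push_cast
      rw [ZMod.natCast_zmod_val, ZMod.natCast_zmod_val]
    rw [Nat.cast_pow, Nat.cast_ofNat] at h4
    exact h4
  rw [FF_congr hn x (y + 1) h3]
  exact FF_b n x y _ _

/-- Bounded displacement actions of the Heisenberg group on `ℤ^35` with uniform bounds. -/
theorem exists_perms (m : ℕ) (hm : 0 < m) : ∃ α β : Equiv.Perm (Fin 35 → ℤ),
    (∀ v j, |α v j - v j| ≤ 4 ^ 10) ∧ (∀ v j, |β v j - v j| ≤ 4 ^ 10) ∧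
    Commute (β * α * β⁻¹ * α⁻¹) α ∧ Commute (β * α * β⁻¹ * α⁻¹) β ∧
    (β * α * β⁻¹ * α⁻¹) ^ m ≠ 1 := by
  have hn : 2 ≤ m + 2 := by omega
  have hmN : m < 4 ^ (8 * (m + 2)) := by
    have : m < 4 ^ m := Nat.lt_pow_self (by norm_num)
    have h2 : 4 ^ m ≤ 4 ^ (8 * (m + 2)) := Nat.pow_le_pow_right (by norm_num) (by omega)
    omega
  generalize m + 2 = n at hn hmN
  have hinj : Function.Injective (Equiv.Perm.viaEmbeddingHom (emb n hn)) :=
    Equiv.Perm.viaEmbeddingHom_injective _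
  have hA : ∀ p, Equiv.Perm.viaEmbeddingHom (emb n hn) (pA _) (emb n hn p)
      = emb n hn (pA _ p) := fun p => Equiv.Perm.viaEmbedding_apply _ _ _
  have hB : ∀ p, Equiv.Perm.viaEmbeddingHom (emb n hn) (pB _) (emb n hn p)
      = emb n hn (pB _ p) := fun p => Equiv.Perm.viaEmbedding_apply _ _ _
  have hA' : ∀ v, v ∉ Set.range (emb n hn) →
      Equiv.Perm.viaEmbeddingHom (emb n hn) (pA _) v = v :=
    fun v hv => Equiv.Perm.viaEmbedding_apply_of_notMem _ _ _ hv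
  have hB' : ∀ v, v ∉ Set.range (emb n hn) →
      Equiv.Perm.viaEmbeddingHom (emb n hn) (pB _) v = v :=
    fun v hv => Equiv.Perm.viaEmbedding_apply_of_notMem _ _ _ hv
  generalize Equiv.Perm.viaEmbeddingHom (emb n hn) = φ at hinj hA hB hA' hB'
  have hc : φ (pB _) * φ (pA _) * (φ (pB _))⁻¹ * (φ (pA _))⁻¹ = φ (pC _) := by
    rw [← pC_eq]; simp
  refine ⟨φ (pA _), φ (pB _), ?_, ?_, ?_, ?_, ?_⟩
  · intro v j
    by_cases hv : v ∈ Set.range (emb n hn)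
    · obtain ⟨p, rfl⟩ := hv
      rw [hA]
      exact emb_pA n hn p j
    · rw [hA' v hv, sub_self, abs_zero]; positivity
  · intro v j
    by_cases hv : v ∈ Set.range (emb n hn)
    · obtain ⟨p, rfl⟩ := hv
      rw [hB]
      exact emb_pB n hn p j
    · rw [hB' v hv, sub_self, abs_zero]; positivity
  · rw [hc]; exact (pC_comm_pA _).map φ
  · rw [hc]; exact (pC_comm_pB _).map φ
  · rw [hc, ← map_pow]
    intro h
    exact pC_pow_ne_one hm hmN (hinj (by rw [h, map_one]))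

end Pool.Agent.H.MP_2c2cb6_an
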